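import Pool.Agent.H82.FP.Targets

/-!
FLS: the step from the scale `s` to the scale `s²` of the four-linear restriction estimate.
-/

set_option autoImplicit false

namespace Pool.Agent.H13.FP

open MeasureTheory Set
open Pool.Agent.H83.G
open Pool.Agent.H22.G4 (nv Ind)
open Pool.Agent.H22.G (co)
open Pool.Agent.H82.FP
open scoped ENNReal NNReal RealInnerProductSpace

theorem pf_FLS (hFLA : T_FLA) (hFLM : T_FLM) (hPUX : T_PUX) : T_FLS := by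
  obtain ⟨D₀, hD₀, hA⟩ := hFLA
  obtain ⟨β, hβ⟩ := hPUX 2
  refine ⟨D₀, hD₀, ?_⟩
  intro D ε hD hε
  obtain ⟨N, C₁, E₁, hN, hC₁, hE₁, hM⟩ := hFLM ε D β hε (hD₀.trans hD) hβ
  obtain ⟨C₂, hC₂, hA2⟩ := hA D N β hD hN hβ
  have hC₁0 : 0 ≤ C₁ := by linarith
  have hC₂0 : 0 ≤ C₂ := by linarith
  refine ⟨200 * C₁ * C₂, E₁, ?_, hE₁, ?_⟩
  · nlinarith
  intro K κ κ' s B c hK hκ hκ' hκκ hCK hB hc hInd hFL
  intro H G z₀ Y hH hTC hsupp hSep hY hYH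
  have hK0 : 0 < K := by linarith
  have hs400 : 400 * K ≤ s := by
    have h1 : 200 * K ≤ 200 * C₁ * C₂ * K := by
      have : 1 ≤ C₁ * C₂ := by nlinarith
      nlinarith
    have h3 : 0 < s := by
      by_contra hneg
      rw [not_lt] at hneg
      have : s * κ' ≤ 0 := mul_nonpos_of_nonpos_of_nonneg hneg hκ'.le
      nlinarith
    have h2 : s * κ' ≤ s * (1 / 4) := by
      apply mul_le_mul_of_nonneg_left _ h3.le
      linarith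
    linarith
  have hs0 : 0 < s := by linarith
  have hσ0 : 0 < 1 / (200 * K) := by positivity
  have hσ1 : 1 / (200 * K) ≤ 1 := by
    rw [div_le_one (by positivity)]
    linarith
  have hCs : C₂ ≤ s * (κ' * (1 / (200 * K))) := by
    have h1 : s * (κ' * (1 / (200 * K))) = s * κ' / (200 * K) := by ring
    rw [h1, le_div_iff₀ (by positivity)]
    refine le_trans ?_ hCK
    have : C₂ * K ≤ C₁ * (C₂ * K) := by
      have h0 : 0 ≤ C₂ * K := by positivity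
      nlinarith
    nlinarith
  have hI : ∀ i, 0 ≤ ∫ ζ, ‖G i ζ‖ ^ 2 := fun i => integral_nonneg fun ζ => by positivity
  have key := hA2 κ κ' (1 / (200 * K)) s B H c G z₀ Y hκ hκ' hκκ hσ0 hσ1 hCs hB hc hFL hH hTC
    hsupp hSep hY hYH
  have key2 := hM K s c G z₀ hK hs400 hc hInd hTC (by
    intro i ζ hζ
    obtain ⟨h1, h2, h3, h4⟩ := hsupp i ζ hζ
    refine ⟨by linarith, by linarith, h3.trans ?_, h4⟩
    have e1 : (3 : ℝ) / (400 * K) = (3 / 2) * (1 / (200 * K)) := by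
      field_simp
      norm_num
    rw [e1]
    apply mul_le_mul_of_nonneg_right _ hσ0.le
    linarith)
  have hw0 : 0 ≤ s⁻¹ * (H ^ 2)⁻¹ := by positivity
  have hs1 : 0 ≤ s⁻¹ := by positivity
  have hR : 0 ≤ C₂ * B * (s ^ 4)⁻¹ := by positivity
  have hS : 0 ≤ C₁ * K ^ E₁ * s ^ ε * s ^ 4 := by
    have := Real.rpow_nonneg hK0.le E₁
    have := Real.rpow_nonneg hs0.le ε
    positivity
  -- split the constants off
  have hsplit : ∫⁻ z in {z | ‖z - z₀‖ ≤ 4 * s ^ 2}, ∏ i, (ENNReal.ofReal (s⁻¹ * (H ^ 2)⁻¹) *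
      ∑ k ∈ Ks 2 s⁻¹, ∫⁻ z', ‖TP β (ctr s⁻¹ k) s⁻¹ (G i) z'‖ₑ ^ 2 *
        ENNReal.ofReal (wt N (s⁻¹ • (z - z')))) ^ (1 / 3 : ℝ) =
      (∏ _i : Fin 4, ENNReal.ofReal (s⁻¹ * (H ^ 2)⁻¹) ^ (1 / 3 : ℝ)) *
      ∫⁻ z in {z | ‖z - z₀‖ ≤ 4 * s ^ 2}, ∏ i, (∑ k ∈ Ks 2 s⁻¹,
        ∫⁻ z', ‖TP β (ctr s⁻¹ k) s⁻¹ (G i) z'‖ₑ ^ 2 *
          ENNReal.ofReal (wt N (s⁻¹ • (z - z')))) ^ (1 / 3 : ℝ) := by
    rw [← lintegral_const_mul']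
    · apply lintegral_congr
      intro z
      rw [← Finset.prod_mul_distrib]
      apply Finset.prod_congr rfl
      intro i _
      rw [ENNReal.mul_rpow_of_nonneg _ _ (by norm_num : (0 : ℝ) ≤ 1 / 3)]
    · apply ENNReal.prod_ne_top
      intro i _
      exact ENNReal.rpow_ne_top_of_nonneg (by norm_num) ENNReal.ofReal_ne_top
  rw [hsplit] at key
  have key3 : ENNReal.ofReal Y.card ≤ ENNReal.ofReal (C₂ * B * (s ^ 4)⁻¹) *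
      ((∏ _i : Fin 4, ENNReal.ofReal (s⁻¹ * (H ^ 2)⁻¹) ^ (1 / 3 : ℝ)) *
      (ENNReal.ofReal (C₁ * K ^ E₁ * s ^ ε * s ^ 4) *
      ∏ i, ENNReal.ofReal (s⁻¹ * ∫ ζ, ‖G i ζ‖ ^ 2) ^ (1 / 3 : ℝ))) := by
    refine key.trans ?_
    gcongr
  have e1 : (∏ _i : Fin 4, ENNReal.ofReal (s⁻¹ * (H ^ 2)⁻¹) ^ (1 / 3 : ℝ)) =
      ENNReal.ofReal (∏ _i : Fin 4, (s⁻¹ * (H ^ 2)⁻¹) ^ (1 / 3 : ℝ)) := by
    rw [ENNReal.ofReal_prod_of_nonneg (fun i _ => Real.rpow_nonneg hw0 _)]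
    apply Finset.prod_congr rfl
    intro i _
    rw [ENNReal.ofReal_rpow_of_nonneg hw0 (by norm_num)]
  have e2 : (∏ i, ENNReal.ofReal (s⁻¹ * ∫ ζ, ‖G i ζ‖ ^ 2) ^ (1 / 3 : ℝ)) =
      ENNReal.ofReal (∏ i, (s⁻¹ * ∫ ζ, ‖G i ζ‖ ^ 2) ^ (1 / 3 : ℝ)) := by
    rw [ENNReal.ofReal_prod_of_nonneg (fun i _ => Real.rpow_nonneg (mul_nonneg hs1 (hI i)) _)]
    apply Finset.prod_congr rfl
    intro i _
    rw [ENNReal.ofReal_rpow_of_nonneg (mul_nonneg hs1 (hI i)) (by norm_num)]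
  rw [e1, e2, ← ENNReal.ofReal_mul hS, ← ENNReal.ofReal_mul
    (Finset.prod_nonneg fun i _ => Real.rpow_nonneg hw0 _), ← ENNReal.ofReal_mul hR] at key3
  have hprod : (∏ _i : Fin 4, (s⁻¹ * (H ^ 2)⁻¹) ^ (1 / 3 : ℝ)) *
      ∏ i, (s⁻¹ * ∫ ζ, ‖G i ζ‖ ^ 2) ^ (1 / 3 : ℝ) =
      ∏ i, ((s ^ 2)⁻¹ * (∫ ζ, ‖G i ζ‖ ^ 2) / H ^ 2) ^ (1 / 3 : ℝ) := by
    rw [← Finset.prod_mul_distrib]
    apply Finset.prod_congr rfl
    intro i _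
    rw [← Real.mul_rpow hw0 (mul_nonneg hs1 (hI i))]
    congr 1
    field_simp
  have hP0 : 0 ≤ ∏ i, ((s ^ 2)⁻¹ * (∫ ζ, ‖G i ζ‖ ^ 2) / H ^ 2) ^ (1 / 3 : ℝ) := by
    apply Finset.prod_nonneg
    intro i _
    apply Real.rpow_nonneg
    have := hI i
    positivity
  have hval : C₂ * B * (s ^ 4)⁻¹ * ((∏ _i : Fin 4, (s⁻¹ * (H ^ 2)⁻¹) ^ (1 / 3 : ℝ)) *
      (C₁ * K ^ E₁ * s ^ ε * s ^ 4 * ∏ i, (s⁻¹ * ∫ ζ, ‖G i ζ‖ ^ 2) ^ (1 / 3 : ℝ))) =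
      C₁ * C₂ * (K ^ E₁ * s ^ ε * B) *
        ∏ i, ((s ^ 2)⁻¹ * (∫ ζ, ‖G i ζ‖ ^ 2) / H ^ 2) ^ (1 / 3 : ℝ) := by
    rw [← hprod]
    field_simp
  rw [hval] at key3
  have hT : 0 ≤ C₁ * C₂ * (K ^ E₁ * s ^ ε * B) := by
    have := Real.rpow_nonneg hK0.le E₁
    have := Real.rpow_nonneg hs0.le ε
    positivity
  have key4 := (ENNReal.ofReal_le_ofReal_iff (mul_nonneg hT hP0)).1 key3
  refine key4.trans ?_
  apply mul_le_mul_of_nonneg_right _ hP0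
  have : C₁ * C₂ * (K ^ E₁ * s ^ ε * B) ≤ 200 * (C₁ * C₂ * (K ^ E₁ * s ^ ε * B)) := by linarith
  refine this.trans (le_of_eq ?_)
  ring

end Pool.Agent.H13.FP
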